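import Mathlib

/-! Coprime pairs and squares in short squares. -/

set_option autoImplicit false

namespace Pool.Agent.SSQ52

open Finset

lemma sum_sq_le (X : ℕ) : ∑ d ∈ Icc 2 X, (1 : ℝ) / (d : ℝ) ^ 2 ≤ 3 / 4 := by
  have h : ∀ K : ℕ, 2 ≤ K → ∑ d ∈ Icc 2 K, (1 : ℝ) / (d : ℝ) ^ 2 ≤ 3 / 4 - 1 / K := by
    intro K hK
    induction K, hK using Nat.le_induction with
    | base => norm_num
    | succ K hK ih =>
      rw [Finset.sum_Icc_succ_top (by omega)]
      have hK' : (2 : ℝ) ≤ K := by exact_mod_cast hK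
      have h1 : (1 : ℝ) / ((K : ℝ) + 1) ^ 2 ≤ 1 / K - 1 / (K + 1) := by
        rw [div_sub_div _ _ (by positivity) (by positivity), div_le_div_iff₀ (by positivity)
          (by positivity)]
        nlinarith
      push_cast at ih ⊢
      linarith
  rcases Nat.lt_or_ge X 2 with hX | hX
  · rw [Icc_eq_empty (by omega), sum_empty]
    norm_num
  · have h1 := h X hX
    have h2 : (0 : ℝ) ≤ 1 / X := by positivity
    linarith

/-- the multiples of `d` in an interval -/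
lemma mult (d X : ℕ) (hd : 1 ≤ d) (U : ℤ) :
    (((Ioc U (U + X)).filter (fun x => (d : ℤ) ∣ x)).card : ℝ) ≤ X / d + 1 := by
  have hd' : (0 : ℤ) < d := by exact_mod_cast hd
  have h1 := Int.Ioc_filter_dvd_card U (U + X) (r := (d : ℤ)) hd'
  have h2 : ((((Ioc U (U + X)).filter (fun x => (d : ℤ) ∣ x)).card : ℤ) : ℝ) ≤ X / d + 1 := by
    rw [h1]
    have hdR : (0 : ℝ) < d := by exact_mod_cast hd
    have h3 : max (⌊((U + X : ℤ) : ℚ) / ((d : ℤ) : ℚ)⌋ - ⌊((U : ℤ) : ℚ) / ((d : ℤ) : ℚ)⌋) 0 ≤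
        (max (⌊((U + X : ℤ) : ℚ) / ((d : ℤ) : ℚ)⌋ - ⌊((U : ℤ) : ℚ) / ((d : ℤ) : ℚ)⌋) 0) := le_rfl
    have h4 : (⌊((U + X : ℤ) : ℚ) / ((d : ℤ) : ℚ)⌋ : ℚ) ≤ ((U + X : ℤ) : ℚ) / ((d : ℤ) : ℚ) :=
      Int.floor_le _
    have h5 : ((U : ℤ) : ℚ) / ((d : ℤ) : ℚ) < ⌊((U : ℤ) : ℚ) / ((d : ℤ) : ℚ)⌋ + 1 :=
      Int.lt_floor_add_one _
    have h6 : ((⌊((U + X : ℤ) : ℚ) / ((d : ℤ) : ℚ)⌋ - ⌊((U : ℤ) : ℚ) / ((d : ℤ) : ℚ)⌋ : ℤ) : ℚ) ≤
        (X : ℚ) / d + 1 := by
      push_cast at h4 h5 ⊢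
      have h7 : ((U : ℚ) + X) / d = U / d + X / d := by rw [add_div]
      rw [h7] at h4 ⊢
      linarith
    have h8 : ((⌊((U + X : ℤ) : ℚ) / ((d : ℤ) : ℚ)⌋ - ⌊((U : ℤ) : ℚ) / ((d : ℤ) : ℚ)⌋ : ℤ) : ℝ) ≤
        (X : ℝ) / d + 1 := by
      generalize (⌊((U + X : ℤ) : ℚ) / ((d : ℤ) : ℚ)⌋ - ⌊((U : ℤ) : ℚ) / ((d : ℤ) : ℚ)⌋ : ℤ) = z
        at h6 ⊢
      have h9 := (Rat.cast_le (K := ℝ)).2 h6
      push_cast at h9
      exact h9
    rw [Int.cast_max]
    exact max_le h8 (by push_cast; positivity)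
  exact_mod_cast h2

/-- the number of the prime factors greater than `X` of an integer of size at most `X ^ K` -/
lemma big_primes (X K n : ℕ) (hX : 2 ≤ X) (hn : 0 < n) (hK : n ≤ X ^ K) :
    (n.primeFactors.filter (fun p => X < p)).card ≤ K := by
  set S := n.primeFactors.filter (fun p => X < p) with hS
  have h1 : X ^ S.card ≤ ∏ p ∈ S, p := by
    rw [← Finset.prod_const]
    exact Finset.prod_le_prod' fun p hp => (mem_filter.1 hp).2.le
  have h2 : ∏ p ∈ S, p ≤ n := by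
    apply Nat.le_of_dvd hn
    exact (Finset.prod_dvd_prod_of_subset _ _ (fun p => p)
      (filter_subset (fun p => X < p) n.primeFactors)).trans (Nat.prod_primeFactors_dvd n)
  have h3 : X ^ S.card ≤ X ^ K := h1.trans (h2.trans hK)
  exact (Nat.pow_le_pow_iff_right (by omega)).1 h3

open Classical in
/-- a positive proportion of the pairs of a short square is coprime -/
theorem cop_short (L : ℕ) : ∃ X0 : ℕ, ∀ X, X0 ≤ X → ∀ U V : ℤ, U.natAbs ≤ X ^ L →
    V.natAbs ≤ X ^ L → (X : ℝ) ^ 2 / 8 ≤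
      (((Ioc U (U + X) ×ˢ Ioc V (V + X)).filter (fun t => IsCoprime t.1 t.2)).card : ℝ) := by
  refine ⟨24 * (L + 13) + 2, fun X hX U V hU hV => ?_⟩
  have hX2 : 2 ≤ X := by omega
  set Q := Ioc U (U + X) ×ˢ Ioc V (V + X) with hQ
  set D : ℕ → Finset (ℤ × ℤ) := fun d =>
    (Ioc U (U + X)).filter (fun x => (d : ℤ) ∣ x) ×ˢ (Ioc V (V + X)).filter (fun x => (d : ℤ) ∣ x)
    with hD
  set B : Finset (ℤ × ℤ) := ((Ioc U (U + X)).filter (fun x => x ≠ 0)).biUnion (fun u =>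
    (u.natAbs.primeFactors.filter (fun p => X < p)).biUnion (fun p =>
      ((Ioc V (V + X)).filter (fun x => (p : ℤ) ∣ x)).image (fun v => (u, v)))) with hB
  set Z : Finset (ℤ × ℤ) := (Ioc V (V + X)).image (fun v => ((0 : ℤ), v)) with hZ
  have hcov : Q.filter (fun t => ¬ IsCoprime t.1 t.2) ⊆ ((Icc 2 X).biUnion D ∪ B) ∪ Z := by
    intro t ht
    obtain ⟨ht1, ht2⟩ := mem_filter.1 ht
    obtain ⟨hu, hv⟩ := mem_product.1 ht1
    by_cases h0 : t.1 = 0
    · apply mem_union_right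
      exact mem_image.2 ⟨t.2, hv, Prod.ext h0.symm rfl⟩
    · apply mem_union_left
      have h1 : Int.gcd t.1 t.2 ≠ 1 := fun h => ht2 (Int.isCoprime_iff_gcd_eq_one.2 h)
      obtain ⟨p, hp, hpd⟩ := Nat.exists_prime_and_dvd h1
      have hp1 : (p : ℤ) ∣ t.1 := (Int.natCast_dvd_natCast.2 hpd).trans (Int.gcd_dvd_left ..)
      have hp2 : (p : ℤ) ∣ t.2 := (Int.natCast_dvd_natCast.2 hpd).trans (Int.gcd_dvd_right ..)
      by_cases hpX : p ≤ X
      · apply mem_union_left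
        exact mem_biUnion.2 ⟨p, mem_Icc.2 ⟨hp.two_le, hpX⟩,
          mem_product.2 ⟨mem_filter.2 ⟨hu, hp1⟩, mem_filter.2 ⟨hv, hp2⟩⟩⟩
      · apply mem_union_right
        refine mem_biUnion.2 ⟨t.1, mem_filter.2 ⟨hu, h0⟩, mem_biUnion.2 ⟨p, mem_filter.2
          ⟨Nat.mem_primeFactors.2 ⟨hp, Int.natCast_dvd.1 hp1, Int.natAbs_ne_zero.2 h0⟩,
            not_le.1 hpX⟩, mem_image.2 ⟨t.2, mem_filter.2 ⟨hv, hp2⟩, rfl⟩⟩⟩
  have hcU : (Ioc U (U + X)).card = X := by rw [Int.card_Ioc]; simp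
  have hcV : (Ioc V (V + X)).card = X := by rw [Int.card_Ioc]; simp
  have hDc : ∀ d ∈ Icc 2 X, ((D d).card : ℝ) ≤ 10 / 9 * ((X : ℝ) ^ 2 * (1 / (d : ℝ) ^ 2)) + 10 := by
    intro d hd
    have hd1 : 1 ≤ d := by have := (mem_Icc.1 hd).1; omega
    rw [hD]
    simp only
    rw [card_product]
    push_cast
    have h1 := mult d X hd1 U
    have h2 := mult d X hd1 V
    have h3 : (0 : ℝ) ≤ X / d := by positivity
    calc _ ≤ ((X : ℝ) / d + 1) * (X / d + 1) := mul_le_mul h1 h2 (Nat.cast_nonneg _) (by positivity)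
      _ ≤ 10 / 9 * ((X : ℝ) / d) ^ 2 + 10 := by nlinarith [sq_nonneg ((X : ℝ) / d - 9)]
      _ = _ := by rw [div_pow]; ring
  have hDs : (((Icc 2 X).biUnion D).card : ℝ) ≤ 5 / 6 * (X : ℝ) ^ 2 + 10 * X := by
    calc (((Icc 2 X).biUnion D).card : ℝ) ≤ ∑ d ∈ Icc 2 X, ((D d).card : ℝ) := by
          exact_mod_cast card_biUnion_le
      _ ≤ ∑ d ∈ Icc 2 X, (10 / 9 * ((X : ℝ) ^ 2 * (1 / (d : ℝ) ^ 2)) + 10) := sum_le_sum hDc
      _ = 10 / 9 * (X : ℝ) ^ 2 * (∑ d ∈ Icc 2 X, 1 / (d : ℝ) ^ 2) + 10 * (Icc 2 X).card := by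
          rw [sum_add_distrib, sum_const, nsmul_eq_mul, mul_sum]
          congr 1
          · exact sum_congr rfl fun d _ => by ring
          · ring
      _ ≤ 10 / 9 * (X : ℝ) ^ 2 * (3 / 4) + 10 * X := by
          have h1 := sum_sq_le X
          have h2 : ((Icc 2 X).card : ℝ) ≤ X := by
            rw [Nat.card_Icc]
            exact_mod_cast (by omega : X + 1 - 2 ≤ X)
          have h3 : (0 : ℝ) ≤ 10 / 9 * (X : ℝ) ^ 2 := by positivity
          nlinarith
      _ = _ := by ring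
  have hBc : (B.card : ℝ) ≤ X * (L + 2) := by
    have h1 : B.card ≤ ∑ u ∈ (Ioc U (U + X)).filter (fun x => x ≠ 0), (L + 2) := by
      rw [hB]
      refine card_biUnion_le.trans (sum_le_sum fun u hu => ?_)
      obtain ⟨hu1, hu0⟩ := mem_filter.1 hu
      rw [mem_Ioc] at hu1
      have hux : u.natAbs ≤ X ^ (L + 2) := by
        have h2 : u.natAbs ≤ X ^ L + X := by omega
        have h3 : X ^ L ≤ X ^ (L + 1) := Nat.pow_le_pow_right (by omega) (by omega)
        have h4 : X ^ 1 ≤ X ^ (L + 1) := Nat.pow_le_pow_right (by omega) (by omega)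
        rw [pow_one] at h4
        calc u.natAbs ≤ 2 * X ^ (L + 1) := by omega
          _ ≤ X * X ^ (L + 1) := Nat.mul_le_mul_right _ hX2
          _ = X ^ (L + 2) := by ring
      have h5 := big_primes X (L + 2) u.natAbs hX2 (Int.natAbs_pos.2 hu0) hux
      refine card_biUnion_le.trans ?_
      refine (sum_le_sum (g := fun _ => 1) fun p hp => ?_).trans ?_
      · obtain ⟨hp1, hp2⟩ := mem_filter.1 hp
        refine card_image_le.trans ?_
        have hpp := (Nat.mem_primeFactors.1 hp1).1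
        have h6 := mult p X hpp.one_le V
        have h7 : (X : ℝ) / p < 1 := by
          rw [div_lt_one (by exact_mod_cast hpp.pos)]
          exact_mod_cast hp2
        have h8 : (((Ioc V (V + X)).filter (fun x => (p : ℤ) ∣ x)).card : ℝ) < 2 := by linarith
        have h9 : ((Ioc V (V + X)).filter (fun x => (p : ℤ) ∣ x)).card < 2 := by exact_mod_cast h8
        omega
      · rw [sum_const, smul_eq_mul, mul_one]
        exact h5
    have h2 : ((Ioc U (U + X)).filter (fun x => x ≠ 0)).card ≤ X :=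
      (card_le_card (filter_subset _ _)).trans hcU.le
    rw [sum_const, smul_eq_mul] at h1
    have h3 : B.card ≤ X * (L + 2) := h1.trans (Nat.mul_le_mul_right _ h2)
    exact_mod_cast h3
  have hZc : (Z.card : ℝ) ≤ X := by
    have h1 : Z.card ≤ X := card_image_le.trans hcV.le
    exact_mod_cast h1
  have hQc : (Q.card : ℝ) = (X : ℝ) ^ 2 := by
    rw [hQ, card_product, hcU, hcV]
    push_cast
    ring
  have hnc : ((Q.filter (fun t => ¬ IsCoprime t.1 t.2)).card : ℝ) ≤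
      (5 / 6 * (X : ℝ) ^ 2 + 10 * X) + X * (L + 2) + X := by
    have h1 : (Q.filter (fun t => ¬ IsCoprime t.1 t.2)).card ≤
        ((Icc 2 X).biUnion D).card + B.card + Z.card :=
      (card_le_card hcov).trans ((card_union_le _ _).trans
        (Nat.add_le_add_right (card_union_le _ _) _))
    have h2 : ((Q.filter (fun t => ¬ IsCoprime t.1 t.2)).card : ℝ) ≤
        (((Icc 2 X).biUnion D).card : ℝ) + B.card + Z.card := by exact_mod_cast h1
    linarith
  have hsplit : ((Q.filter (fun t => IsCoprime t.1 t.2)).card : ℝ) +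
      ((Q.filter (fun t => ¬ IsCoprime t.1 t.2)).card : ℝ) = Q.card := by
    exact_mod_cast card_filter_add_card_filter_not (s := Q) (fun t => IsCoprime t.1 t.2)
  have hXR : (24 * ((L : ℝ) + 13)) ≤ X := by
    have : 24 * (L + 13) ≤ X := by omega
    exact_mod_cast this
  have hX0 : (0 : ℝ) ≤ X := Nat.cast_nonneg _
  nlinarith

/-- the squares in a window of length `X` -/
lemma sq_window (S : Finset ℕ) (X : ℕ) (h : ∀ n ∈ S, ∀ m ∈ S, n ≤ m + X)
    (hs : ∀ n ∈ S, IsSquare n) : S.card ≤ Nat.sqrt X + 1 := by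
  rcases S.eq_empty_or_nonempty with rfl | hne
  · simp
  obtain ⟨m, hm, hmin⟩ := S.exists_min_image id hne
  simp only [id] at hmin
  have h1 : S.card ≤ (Icc (Nat.sqrt m) (Nat.sqrt m + Nat.sqrt X)).card := by
    apply card_le_card_of_injOn Nat.sqrt
    · intro n hn
      have hn' := mem_coe.1 hn
      rw [mem_coe, mem_Icc]
      refine ⟨Nat.sqrt_le_sqrt (hmin n hn'), ?_⟩
      obtain ⟨a, ha⟩ := hs n hn'
      obtain ⟨b, hb⟩ := hs m hm
      have h2 := h n hn' m hm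
      rw [ha, hb, Nat.sqrt_eq, Nat.sqrt_eq]
      rw [ha, hb] at h2
      by_contra hc
      push Not at hc
      have h3 : Nat.sqrt X < a - b := by omega
      have h4 : X < (a - b) * (a - b) := Nat.sqrt_lt.1 h3
      have h5 : b ≤ a := by omega
      obtain ⟨c, rfl⟩ := Nat.exists_eq_add_of_le h5
      rw [Nat.add_sub_cancel_left] at h4
      nlinarith
    · intro n hn n' hn' he
      obtain ⟨a, ha⟩ := hs n (mem_coe.1 hn)
      obtain ⟨b, hb⟩ := hs n' (mem_coe.1 hn')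
      rw [ha, hb] at he ⊢
      simp only [Nat.sqrt_eq] at he
      rw [he]
  rw [Nat.card_Icc] at h1
  omega

open Classical in
/-- the integers of an interval whose absolute value is a square -/
lemma sq_ival (U : ℤ) (X : ℕ) :
    ((Ioc U (U + X)).filter (fun u => IsSquare u.natAbs)).card ≤ 2 * (Nat.sqrt X + 1) := by
  set S := (Ioc U (U + X)).filter (fun u => IsSquare u.natAbs) with hS
  have h1 : ((S.filter (fun u => 0 ≤ u)).image Int.natAbs).card ≤ Nat.sqrt X + 1 := by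
    apply sq_window
    · intro n hn m hm
      obtain ⟨a, ha, rfl⟩ := mem_image.1 hn
      obtain ⟨b, hb, rfl⟩ := mem_image.1 hm
      obtain ⟨ha1, ha2⟩ := mem_filter.1 ha
      obtain ⟨hb1, hb2⟩ := mem_filter.1 hb
      have ha3 := mem_Ioc.1 (mem_filter.1 ha1).1
      have hb3 := mem_Ioc.1 (mem_filter.1 hb1).1
      omega
    · intro n hn
      obtain ⟨a, ha, rfl⟩ := mem_image.1 hn
      exact (mem_filter.1 (mem_filter.1 ha).1).2
  have h2 : ((S.filter (fun u => ¬ 0 ≤ u)).image Int.natAbs).card ≤ Nat.sqrt X + 1 := by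
    apply sq_window
    · intro n hn m hm
      obtain ⟨a, ha, rfl⟩ := mem_image.1 hn
      obtain ⟨b, hb, rfl⟩ := mem_image.1 hm
      obtain ⟨ha1, ha2⟩ := mem_filter.1 ha
      obtain ⟨hb1, hb2⟩ := mem_filter.1 hb
      have ha3 := mem_Ioc.1 (mem_filter.1 ha1).1
      have hb3 := mem_Ioc.1 (mem_filter.1 hb1).1
      omega
    · intro n hn
      obtain ⟨a, ha, rfl⟩ := mem_image.1 hn
      exact (mem_filter.1 (mem_filter.1 ha).1).2
  rw [card_image_of_injOn (by
    intro a ha b hb hab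
    have ha2 := (mem_filter.1 (mem_coe.1 ha)).2
    have hb2 := (mem_filter.1 (mem_coe.1 hb)).2
    omega)] at h1
  rw [card_image_of_injOn (by
    intro a ha b hb hab
    have ha2 := (mem_filter.1 (mem_coe.1 ha)).2
    have hb2 := (mem_filter.1 (mem_coe.1 hb)).2
    omega)] at h2
  have h3 := card_filter_add_card_filter_not (s := S) (fun u => 0 ≤ u)
  omega

open Classical in
/-- a positive proportion of the pairs of a short square is coprime, with nonzero coordinates of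
different absolute values that are not both squares -/
theorem good_short (L : ℕ) : ∃ X0 : ℕ, ∀ X, X0 ≤ X → ∀ U V : ℤ, U.natAbs ≤ X ^ L →
    V.natAbs ≤ X ^ L → (X : ℝ) ^ 2 / 16 ≤
      (((Ioc U (U + X) ×ˢ Ioc V (V + X)).filter (fun t => IsCoprime t.1 t.2 ∧ t.1 ≠ 0 ∧ t.2 ≠ 0 ∧
        t.1.natAbs ≠ t.2.natAbs ∧ ¬ IsSquare t.1.natAbs)).card : ℝ) := by
  obtain ⟨X1, h1⟩ := cop_short L
  refine ⟨max X1 40000, fun X hX U V hU hV => ?_⟩
  have h2 := h1 X ((le_max_left _ _).trans hX) U V hU hV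
  have hX3 : 40000 ≤ X := (le_max_right _ _).trans hX
  set Q := Ioc U (U + X) ×ˢ Ioc V (V + X) with hQ
  have hcU : (Ioc U (U + X)).card = X := by rw [Int.card_Ioc]; simp
  have hcV : (Ioc V (V + X)).card = X := by rw [Int.card_Ioc]; simp
  set A1 : Finset (ℤ × ℤ) := (Ioc V (V + X)).image (fun v => ((0 : ℤ), v)) with hA1
  set A2 : Finset (ℤ × ℤ) := (Ioc U (U + X)).image (fun u => (u, (0 : ℤ))) with hA2
  set A3 : Finset (ℤ × ℤ) := (Ioc U (U + X)).image (fun u => (u, u)) with hA3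
  set A4 : Finset (ℤ × ℤ) := (Ioc U (U + X)).image (fun u => (u, -u)) with hA4
  set A5 : Finset (ℤ × ℤ) := (Ioc U (U + X)).filter (fun u => IsSquare u.natAbs) ×ˢ
    Ioc V (V + X) with hA5
  have hcov : Q.filter (fun t => IsCoprime t.1 t.2) ⊆
      Q.filter (fun t => IsCoprime t.1 t.2 ∧ t.1 ≠ 0 ∧ t.2 ≠ 0 ∧
        t.1.natAbs ≠ t.2.natAbs ∧ ¬ IsSquare t.1.natAbs) ∪ (A1 ∪ (A2 ∪ (A3 ∪ (A4 ∪ A5)))) := by
    rintro ⟨u, v⟩ ht
    obtain ⟨ht1, ht2⟩ := mem_filter.1 ht
    obtain ⟨hu, hv⟩ := mem_product.1 ht1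
    simp only at hu hv ht2
    by_cases c1 : u = 0
    · subst c1
      exact mem_union_right _ (mem_union_left _ (mem_image.2 ⟨v, hv, rfl⟩))
    by_cases c2 : v = 0
    · subst c2
      exact mem_union_right _ (mem_union_right _ (mem_union_left _ (mem_image.2 ⟨u, hu, rfl⟩)))
    by_cases c3 : u.natAbs = v.natAbs
    · rcases Int.natAbs_eq_natAbs_iff.1 c3 with h | h
      · subst h
        exact mem_union_right _ (mem_union_right _ (mem_union_right _ (mem_union_left _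
          (mem_image.2 ⟨u, hu, rfl⟩))))
      · have h' : v = -u := by omega
        subst h'
        exact mem_union_right _ (mem_union_right _ (mem_union_right _ (mem_union_right _
          (mem_union_left _ (mem_image.2 ⟨u, hu, rfl⟩)))))
    by_cases c4 : IsSquare u.natAbs
    · exact mem_union_right _ (mem_union_right _ (mem_union_right _ (mem_union_right _
        (mem_union_right _ (mem_product.2 ⟨mem_filter.2 ⟨hu, c4⟩, hv⟩)))))
    · exact mem_union_left _ (mem_filter.2 ⟨ht1, ht2, c1, c2, c3, c4⟩)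
  have b1 : A1.card ≤ X := card_image_le.trans hcV.le
  have b2 : A2.card ≤ X := card_image_le.trans hcU.le
  have b3 : A3.card ≤ X := card_image_le.trans hcU.le
  have b4 : A4.card ≤ X := card_image_le.trans hcU.le
  have b5 : A5.card ≤ 2 * (Nat.sqrt X + 1) * X := by
    rw [hA5, card_product, hcV]
    exact Nat.mul_le_mul_right _ (sq_ival U X)
  have b6 : (Q.filter (fun t => IsCoprime t.1 t.2)).card ≤
      (Q.filter (fun t => IsCoprime t.1 t.2 ∧ t.1 ≠ 0 ∧ t.2 ≠ 0 ∧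
        t.1.natAbs ≠ t.2.natAbs ∧ ¬ IsSquare t.1.natAbs)).card +
        (X + (X + (X + (X + 2 * (Nat.sqrt X + 1) * X)))) := by
    refine (card_le_card hcov).trans ((card_union_le _ _).trans (Nat.add_le_add_left ?_ _))
    refine (card_union_le _ _).trans (Nat.add_le_add b1 ?_)
    refine (card_union_le _ _).trans (Nat.add_le_add b2 ?_)
    refine (card_union_le _ _).trans (Nat.add_le_add b3 ?_)
    exact (card_union_le _ _).trans (Nat.add_le_add b4 b5)
  have b7 : ((Q.filter (fun t => IsCoprime t.1 t.2)).card : ℝ) ≤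
      ((Q.filter (fun t => IsCoprime t.1 t.2 ∧ t.1 ≠ 0 ∧ t.2 ≠ 0 ∧
        t.1.natAbs ≠ t.2.natAbs ∧ ¬ IsSquare t.1.natAbs)).card : ℝ) +
        (X + (X + (X + (X + 2 * ((Nat.sqrt X : ℝ) + 1) * X)))) := by exact_mod_cast b6
  -- `200 * sqrt X ≤ X`
  have hs1 : 200 ≤ Nat.sqrt X := by
    rw [Nat.le_sqrt]
    omega
  have hs2 : Nat.sqrt X * Nat.sqrt X ≤ X := Nat.sqrt_le X
  have hs3 : 200 * Nat.sqrt X ≤ X := (Nat.mul_le_mul_right _ hs1).trans hs2
  have hs4 : 200 * (Nat.sqrt X : ℝ) ≤ X := by exact_mod_cast hs3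
  have hX4 : (40000 : ℝ) ≤ X := by exact_mod_cast hX3
  have hfin : (X : ℝ) ^ 2 / 8 - (X + (X + (X + (X + 2 * ((Nat.sqrt X : ℝ) + 1) * X)))) ≥
      (X : ℝ) ^ 2 / 16 := by
    have e1 : (Nat.sqrt X : ℝ) ≤ X / 200 := by linarith
    have e2 : 2 * ((Nat.sqrt X : ℝ) + 1) * X ≤ 2 * (X / 200 + 1) * X := by
      apply mul_le_mul_of_nonneg_right _ (by linarith)
      linarith
    nlinarith
  linarith

end Pool.Agent.SSQ52
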