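import Mathlib
import Pool.Agent.W29.RT.LOW4
import Pool.Agent.Y73.Z8.Low
import Pool.Agent.Y294.ET.No8
import Pool.Agent.W307.RT.Tors
import Pool.Agent.W261.RT.Iso

/-! The torsion of the curves `y² = x (x + M) (x + N)` for `Z/2 × Z/4` and `Z/2 × Z/8`. -/

set_option autoImplicit false

namespace Pool.Agent.SSQ52

open Pool.Agent.W307.RT WeierstrassCurve

/-- the curve `y² = x (x + M) (x + N)` over `ℚ` -/
def E (M N : ℤ) : WeierstrassCurve ℚ := ⟨0, (M : ℚ) + N, 0, (M : ℚ) * N, 0⟩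

/-- the short Weierstrass model -/
lemma isoE (M N : ℤ) : Nonempty ((E M N).toAffine.Point ≃+
    (Sh (-27 * (M ^ 2 - M * N + N ^ 2)) (27 * ((M + N) * (2 * M - N) * (M - 2 * N)))).toAffine.Point) := by
  have h := Pool.Agent.W261.RT.iso ((M : ℚ) + N) ((M : ℚ) * N) 0 (-((M : ℚ) + N) / 3) (1 / 3)
    (by norm_num)
  have e : (⟨0, ((M : ℚ) + N + 3 * (-((M : ℚ) + N) / 3)) / (1 / 3) ^ 2, 0,
      ((M : ℚ) * N + 2 * (-((M : ℚ) + N) / 3) * ((M : ℚ) + N) + 3 * (-((M : ℚ) + N) / 3) ^ 2) /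
        (1 / 3) ^ 4,
      (0 + (-((M : ℚ) + N) / 3) * ((M : ℚ) * N) + (-((M : ℚ) + N) / 3) ^ 2 * ((M : ℚ) + N) +
        (-((M : ℚ) + N) / 3) ^ 3) / (1 / 3) ^ 6⟩ : WeierstrassCurve ℚ) =
      Sh (-27 * (M ^ 2 - M * N + N ^ 2)) (27 * ((M + N) * (2 * M - N) * (M - 2 * N))) := by
    unfold Sh
    ext
    · rfl
    · simp only
      ring
    · rfl
    · simp only
      push_cast
      ring
    · simp only
      push_cast
      ring
  rw [e] at h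
  exact h

/-- `Z/2 × Z/m` embeds -/
def Contains (m : ℕ) (W : WeierstrassCurve ℚ) : Prop :=
  ∃ f : ZMod 2 × ZMod m →+ W.toAffine.Point, Function.Injective f

lemma contains_of {m : ℕ} {M N : ℤ}
    (h : HasT m (Sh (-27 * (M ^ 2 - M * N + N ^ 2)) (27 * ((M + N) * (2 * M - N) * (M - 2 * N))))) :
    Contains m (E M N) := by
  obtain ⟨f, hf⟩ := tors_iff.1 h
  obtain ⟨e⟩ := isoE M N
  exact ⟨e.symm.toAddMonoidHom.comp f, e.symm.injective.comp hf⟩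

lemma contains4 {u v : ℤ} (hu : u ≠ 0) (hv : v ≠ 0) (huv : u.natAbs ≠ v.natAbs) :
    Contains 4 (E (u ^ 2) (v ^ 2)) := by
  apply contains_of
  have h1 : u + v ≠ 0 := by omega
  have h2 : u - v ≠ 0 := by omega
  refine Pool.Agent.W29.RT.hasT4 (a := (u : ℚ)) (b := (v : ℚ)) ?_ ?_ (by exact_mod_cast hu)
    (by exact_mod_cast hv) (by exact_mod_cast h1) (by exact_mod_cast h2)
  · push_cast
    ring
  · push_cast
    ring

lemma no8_aux {u v : ℤ} {a b : ℕ} (hb : 1 ≤ b) (hab : b < a) (hc : a.Coprime b)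
    (hsq : ¬ (IsSquare a ∧ IsSquare b))
    (h : (u.natAbs = a ∧ v.natAbs = b) ∨ (u.natAbs = b ∧ v.natAbs = a))
    (P : (E (u ^ 2) (v ^ 2)).toAffine.Point) : addOrderOf P ≠ 8 := by
  obtain ⟨e⟩ := isoE (u ^ 2) (v ^ 2)
  have key : ∀ Q : (Sh (-27 * ((u ^ 2) ^ 2 - u ^ 2 * v ^ 2 + (v ^ 2) ^ 2))
      (27 * ((u ^ 2 + v ^ 2) * (2 * u ^ 2 - v ^ 2) * (u ^ 2 - 2 * v ^ 2)))).toAffine.Point,
      addOrderOf Q ≠ 8 := by
    intro Q
    have hsu : u ^ 2 = ((u.natAbs : ℤ)) ^ 2 := (Int.natAbs_sq u).symm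
    have hsv : v ^ 2 = ((v.natAbs : ℤ)) ^ 2 := (Int.natAbs_sq v).symm
    rcases h with ⟨h1, h2⟩ | ⟨h1, h2⟩
    · refine Pool.Agent.Y294.ET.no8 hb hab hc hsq ?_ ?_ Q
      · rw [hsu, hsv, h1, h2]
        ring
      · rw [hsu, hsv, h1, h2]
    · refine Pool.Agent.Y294.ET.no8 hb hab hc hsq ?_ ?_ Q
      · rw [hsu, hsv, h1, h2]
        ring
      · rw [hsu, hsv, h1, h2]
        ring
  rw [← AddEquiv.addOrderOf_eq e P]
  exact key _

/-- no point of order 8 -/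
lemma no8 {u v : ℤ} (hc : IsCoprime u v) (hu : u ≠ 0) (hv : v ≠ 0) (huv : u.natAbs ≠ v.natAbs)
    (hsq : ¬ IsSquare u.natAbs) (P : (E (u ^ 2) (v ^ 2)).toAffine.Point) : addOrderOf P ≠ 8 := by
  have hc' : Nat.Coprime u.natAbs v.natAbs := Int.isCoprime_iff_gcd_eq_one.1 hc
  rcases Nat.lt_or_ge u.natAbs v.natAbs with h | h
  · exact no8_aux (a := v.natAbs) (b := u.natAbs) (Int.natAbs_pos.2 hu) h hc'.symm
      (fun h2 => hsq h2.2) (Or.inr ⟨rfl, rfl⟩) P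
  · exact no8_aux (a := u.natAbs) (b := v.natAbs) (Int.natAbs_pos.2 hv) (by omega) hc'
      (fun h2 => hsq h2.1) (Or.inl ⟨rfl, rfl⟩) P

/-- no solution of `2 u v = ± (u ^ 2 - v ^ 2)` -/
lemma ne8 {u v : ℤ} (hv : v ≠ 0) : (2 * u * v) ^ 2 ≠ (u ^ 2 - v ^ 2) ^ 2 := by
  intro h
  have h1 : (2 * u * v - (u ^ 2 - v ^ 2)) * (2 * u * v + (u ^ 2 - v ^ 2)) = 0 := by
    linear_combination h
  have key : ∀ x : ℤ, x ^ 2 ≠ 2 * v ^ 2 := by
    intro x hx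
    have h2 : (x : ℝ) ^ 2 = 2 * (v : ℝ) ^ 2 := by exact_mod_cast hx
    have hvR : (v : ℝ) ≠ 0 := by exact_mod_cast hv
    have h3 : ((x : ℝ) / v) ^ 2 = 2 := by
      rw [div_pow, h2]
      field_simp
    have h4 : |(x : ℝ) / v| = √2 := by
      rw [← Real.sqrt_sq_eq_abs, h3]
    apply irrational_sqrt_two
    refine ⟨|(x : ℚ) / v|, ?_⟩
    push_cast
    exact h4
  rcases mul_eq_zero.1 h1 with h2 | h2
  · exact key (u - v) (by linear_combination -h2)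
  · exact key (u + v) (by linear_combination h2)

lemma hasT8_aux {M N : ℤ} {a b : ℤ} (hb : 0 < b) (hab : b < a)
    (h : (M = (2 * a * b) ^ 4 ∧ N = (a ^ 2 - b ^ 2) ^ 4)) : Contains 8 (E M N) := by
  apply contains_of
  obtain ⟨h1, h2⟩ := h
  have hne := ne8 (u := a) (v := b) hb.ne'
  refine Pool.Agent.Y73.Z8.hasT8 (X := (a : ℚ)) (Y := (b : ℚ)) (a := ((a : ℚ) ^ 2 - b ^ 2) ^ 2)
    (b := (2 * (a : ℚ) * b) ^ 2) rfl rfl ?_ ?_ (by exact_mod_cast hb) (by exact_mod_cast hab) ?_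
  · rw [h1, h2]
    push_cast
    ring
  · rw [h1, h2]
    push_cast
    ring
  · intro h3
    apply hne
    have h4 : ((a : ℚ) ^ 2 - b ^ 2) ^ 2 = (2 * (a : ℚ) * b) ^ 2 := by linarith
    exact_mod_cast h4.symm

lemma contains8 {u v : ℤ} (hu : u ≠ 0) (hv : v ≠ 0) (huv : u.natAbs ≠ v.natAbs) :
    Contains 8 (E ((2 * u * v) ^ 4) ((u ^ 2 - v ^ 2) ^ 4)) := by
  have hsu : u ^ 2 = |u| ^ 2 := (sq_abs u).symm
  have hsv : v ^ 2 = |v| ^ 2 := (sq_abs v).symm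
  have e1 : (2 * u * v) ^ 4 = (2 * |u| * |v|) ^ 4 := by
    calc (2 * u * v) ^ 4 = 16 * (u ^ 2) ^ 2 * (v ^ 2) ^ 2 := by ring
      _ = 16 * (|u| ^ 2) ^ 2 * (|v| ^ 2) ^ 2 := by rw [hsu, hsv, sq_abs, sq_abs]
      _ = _ := by ring
  have e2 : (u ^ 2 - v ^ 2) ^ 4 = (|u| ^ 2 - |v| ^ 2) ^ 4 := by rw [sq_abs, sq_abs]
  have hu' : 0 < |u| := abs_pos.2 hu
  have hv' : 0 < |v| := abs_pos.2 hv
  rw [e1, e2]
  rcases lt_trichotomy |u| |v| with h | h | h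
  · refine hasT8_aux (a := |v|) (b := |u|) hu' h ⟨by ring, by ring⟩
  · exfalso
    apply huv
    have h2 := congrArg Int.natAbs h
    rwa [Int.natAbs_abs, Int.natAbs_abs] at h2
  · exact hasT8_aux (a := |u|) (b := |v|) hv' h ⟨rfl, rfl⟩

end Pool.Agent.SSQ52
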