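import Mathlib
import Pool.Agent.Y723.Z8.FinS
import Pool.Agent.TH841.PT.Fam3
import Pool.Agent.TH841.SH.Wt
import Pool.Agent.SSQ52.Cnt
import Pool.Agent.SSQ52.Cur

/-! The averages over the short squares. -/

set_option autoImplicit false

namespace Pool.Agent.SSQ52

open Finset
open Pool.Agent.TH841.SH.D (ShaTor HasDiv rk)
open Pool.Agent.TH841.SH (wt Bd family)
open Pool.Agent.TH841.PT (EQ bd_EQ)
open Pool.Agent.Y723.Z8.S46 (Sq sq4)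
open Pool.Agent.W307.SE (SN SN_nonneg GGg GGg_nonneg)
open Pool.Agent.W307.RT (M4 N4)
open Pool.Agent.Y723.Z8 (M8 N8)

lemma EQ_eq (M N : ℤ) : EQ (-M) (-N) = E M N := by
  unfold EQ E
  ext
  · rfl
  · simp only
    push_cast
    ring
  · rfl
  · simp only
    push_cast
    ring
  · rfl

lemma bd_E {M N : ℤ} (hM : M ≠ 0) (hN : N ≠ 0) (hMN : M ≠ N) : Bd (E M N) (SN (-M) (-N)) := by
  have h := bd_EQ (A := -M) (B := -N) (neg_ne_zero.2 hM) (neg_ne_zero.2 hN)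
    (fun h => hMN (neg_injective h))
  rwa [EQ_eq] at h

open Classical in
/-- the conclusion for a finite set of pairs of a square of side `X` -/
def Holds (C : ℝ) (X : ℕ) (W : ℤ × ℤ → WeierstrassCurve ℚ) (S : Finset (ℤ × ℤ)) : Prop :=
  (X : ℝ) ^ 2 ≤ C * S.card ∧
  (∀ t ∈ S, ∀ k : ℕ, Finite (ShaTor (W t) (2 ^ k))) ∧
  (∀ k : ℕ, 1 ≤ k → ∑ t ∈ S, wt (W t) k ≤ C * S.card) ∧
  ∀ r δ : ℕ, ((S.filter (fun t => r ≤ rk (W t) ∧ HasDiv (W t) δ)).card : ℝ) ≤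
    C * S.card / 2 ^ (r + δ)

lemma Holds.mono {C C' : ℝ} (hC : C ≤ C') {X : ℕ} {W : ℤ × ℤ → WeierstrassCurve ℚ}
    {S : Finset (ℤ × ℤ)} (h : Holds C X W S) : Holds C' X W S := by
  obtain ⟨h1, h2, h3, h4⟩ := h
  have h5 : C * S.card ≤ C' * S.card := mul_le_mul_of_nonneg_right hC (Nat.cast_nonneg _)
  exact ⟨h1.trans h5, h2, fun k hk => (h3 k hk).trans h5, fun r δ => (h4 r δ).trans
    (div_le_div_of_nonneg_right h5 (by positivity))⟩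

open Classical in
lemma main_of {M N : ℤ → ℤ → ℤ} (h : Sq M N) (P : ℤ × ℤ → Prop)
    (hP : ∀ t, P t → IsCoprime t.1 t.2 ∧ M t.1 t.2 ≠ 0 ∧ N t.1 t.2 ≠ 0 ∧ M t.1 t.2 ≠ N t.1 t.2)
    (hgood : ∀ t : ℤ × ℤ, IsCoprime t.1 t.2 → t.1 ≠ 0 → t.2 ≠ 0 → t.1.natAbs ≠ t.2.natAbs →
      ¬ IsSquare t.1.natAbs → P t) (L : ℕ) :
    ∃ (C : ℝ) (X0 : ℕ), ∀ X : ℕ, X0 ≤ X → ∀ U V : ℤ, U.natAbs ≤ X ^ L → V.natAbs ≤ X ^ L →
      Holds C X (fun t => E (M t.1 t.2) (N t.1 t.2))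
        ((Ioc U (U + X) ×ˢ Ioc V (V + X)).filter P) := by
  obtain ⟨C, hC⟩ := h L
  obtain ⟨X1, h1⟩ := good_short L
  refine ⟨16 * max C 1, max X1 1, fun X hX U V hU hV => ?_⟩
  have hX1 : 1 ≤ X := (le_max_right _ _).trans hX
  have h2 := h1 X ((le_max_left _ _).trans hX) U V hU hV
  set S := (Ioc U (U + X) ×ˢ Ioc V (V + X)).filter P with hS
  have h3 : (X : ℝ) ^ 2 ≤ 16 * S.card := by
    have h4 : ((Ioc U (U + X) ×ˢ Ioc V (V + X)).filter (fun t : ℤ × ℤ => IsCoprime t.1 t.2 ∧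
        t.1 ≠ 0 ∧ t.2 ≠ 0 ∧ t.1.natAbs ≠ t.2.natAbs ∧ ¬ IsSquare t.1.natAbs)).card ≤ S.card := by
      apply card_le_card
      intro t ht
      obtain ⟨ht1, ht2, ht3, ht4, ht5, ht6⟩ := mem_filter.1 ht
      exact mem_filter.2 ⟨ht1, hgood t ht2 ht3 ht4 ht5 ht6⟩
    have h5 : (((Ioc U (U + X) ×ˢ Ioc V (V + X)).filter (fun t : ℤ × ℤ => IsCoprime t.1 t.2 ∧
        t.1 ≠ 0 ∧ t.2 ≠ 0 ∧ t.1.natAbs ≠ t.2.natAbs ∧ ¬ IsSquare t.1.natAbs)).card : ℝ) ≤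
          S.card := by exact_mod_cast h4
    linarith
  have hS0 : (0 : ℝ) ≤ S.card := Nat.cast_nonneg _
  have hC1 : (1 : ℝ) ≤ max C 1 := le_max_right _ _
  have hsum : ∑ t ∈ S, SN (-(M t.1 t.2)) (-(N t.1 t.2)) ≤ 16 * max C 1 * S.card := by
    have e1 : ∑ t ∈ S, SN (-(M t.1 t.2)) (-(N t.1 t.2)) ≤
        ∑ t ∈ Ioc U (U + X) ×ˢ Ioc V (V + X), GGg SN M N t := by
      calc ∑ t ∈ S, SN (-(M t.1 t.2)) (-(N t.1 t.2)) = ∑ t ∈ S, GGg SN M N t := by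
            refine sum_congr rfl fun t ht => ?_
            unfold GGg
            rw [if_pos (hP t (mem_filter.1 ht).2)]
        _ ≤ _ := sum_le_sum_of_subset_of_nonneg (filter_subset _ _)
            (fun t _ _ => GGg_nonneg SN_nonneg M N t)
    have hsh : (Icc 1 X ×ˢ Icc 1 X).image
        (fun t : ℕ × ℕ => ((U + (t.1 : ℤ), V + (t.2 : ℤ)) : ℤ × ℤ)) =
        Ioc U (U + X) ×ˢ Ioc V (V + X) := by
      ext ⟨x, y⟩
      simp only [mem_image, mem_product, mem_Icc, mem_Ioc, Prod.mk.injEq, Prod.exists]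
      constructor
      · rintro ⟨s, t, ⟨⟨h1, h2⟩, h3, h4⟩, rfl, rfl⟩
        refine ⟨⟨?_, ?_⟩, ?_, ?_⟩ <;> omega
      · rintro ⟨⟨h1, h2⟩, h3, h4⟩
        refine ⟨(x - U).toNat, (y - V).toNat, ⟨⟨?_, ?_⟩, ?_, ?_⟩, ?_, ?_⟩ <;> omega
    have e2 : ∑ t ∈ Ioc U (U + X) ×ˢ Ioc V (V + X), GGg SN M N t ≤ C * X ^ 2 := by
      rw [← hsh, sum_image (fun s _ t _ h => by
        obtain ⟨h1, h2⟩ := Prod.mk.inj h
        exact Prod.ext (by omega) (by omega))]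
      exact hC U V X hX1 hU hV
    calc _ ≤ C * (X : ℝ) ^ 2 := e1.trans e2
      _ ≤ max C 1 * (16 * S.card) := mul_le_mul (le_max_left _ _) h3 (by positivity) (by positivity)
      _ = _ := by ring
  have hbd : ∀ t ∈ S, Bd (E (M t.1 t.2) (N t.1 t.2)) (SN (-(M t.1 t.2)) (-(N t.1 t.2))) := by
    intro t ht
    obtain ⟨-, k1, k2, k3⟩ := hP t (mem_filter.1 ht).2
    exact bd_E k1 k2 k3
  obtain ⟨k1, k2, k3⟩ := family S (fun t => E (M t.1 t.2) (N t.1 t.2)) _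
    (16 * max C 1 * S.card) 1 hbd (by simpa only [pow_one] using hsum)
  refine ⟨?_, k1, fun k hk => by simpa only [pow_one] using k2 k hk, fun r δ => ?_⟩
  · refine h3.trans ?_
    nlinarith
  · have := k3 r δ
    rw [one_mul] at this
    convert this

/-- `Z/2 × Z/4` -/
theorem main4 (P : ℤ × ℤ → Prop)
    (hP : ∀ t, P t → IsCoprime t.1 t.2 ∧ t.1 ≠ 0 ∧ t.2 ≠ 0 ∧ t.1 ^ 2 ≠ t.2 ^ 2)
    (hgood : ∀ t : ℤ × ℤ, IsCoprime t.1 t.2 → t.1 ≠ 0 → t.2 ≠ 0 → t.1.natAbs ≠ t.2.natAbs →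
      ¬ IsSquare t.1.natAbs → P t) (L : ℕ) [DecidablePred P] :
    ∃ (C : ℝ) (X0 : ℕ), ∀ X : ℕ, X0 ≤ X → ∀ U V : ℤ, U.natAbs ≤ X ^ L → V.natAbs ≤ X ^ L →
      Holds C X (fun t => E (t.1 ^ 2) (t.2 ^ 2)) ((Ioc U (U + X) ×ˢ Ioc V (V + X)).filter P) := by
  have h := main_of sq4 P (fun t ht => by
    obtain ⟨h1, h2, h3, h4⟩ := hP t ht
    exact ⟨h1, pow_ne_zero _ h2, pow_ne_zero _ h3, h4⟩) hgood L
  convert h <;> rfl

/-- `Z/2 × Z/8` -/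
theorem main8 (P : ℤ × ℤ → Prop)
    (hP : ∀ t, P t → IsCoprime t.1 t.2 ∧ t.1 ≠ 0 ∧ t.2 ≠ 0 ∧ t.1 ^ 2 ≠ t.2 ^ 2)
    (hgood : ∀ t : ℤ × ℤ, IsCoprime t.1 t.2 → t.1 ≠ 0 → t.2 ≠ 0 → t.1.natAbs ≠ t.2.natAbs →
      ¬ IsSquare t.1.natAbs → P t) (L : ℕ) [DecidablePred P] :
    ∃ (C : ℝ) (X0 : ℕ), ∀ X : ℕ, X0 ≤ X → ∀ U V : ℤ, U.natAbs ≤ X ^ L → V.natAbs ≤ X ^ L →
      Holds C X (fun t => E ((2 * t.1 * t.2) ^ 4) ((t.1 ^ 2 - t.2 ^ 2) ^ 4))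
        ((Ioc U (U + X) ×ˢ Ioc V (V + X)).filter P) := by
  have h := main_of Pool.Agent.Y723.Z8.FinS8.sq8 P (fun t ht => by
    obtain ⟨h1, h2, h3, h4⟩ := hP t ht
    refine ⟨h1, pow_ne_zero _ (mul_ne_zero (mul_ne_zero two_ne_zero h2) h3),
      pow_ne_zero _ (sub_ne_zero.2 h4), fun h5 => ?_⟩
    have h6 := ne8 (u := t.1) h3
    apply h6
    have h7 : ((2 * t.1 * t.2) ^ 2) ^ 2 = ((t.1 ^ 2 - t.2 ^ 2) ^ 2) ^ 2 := by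
      have h8 : (2 * t.1 * t.2) ^ 4 = (t.1 ^ 2 - t.2 ^ 2) ^ 4 := h5
      rw [← pow_mul, ← pow_mul]
      exact h8
    exact (pow_left_inj₀ (sq_nonneg _) (sq_nonneg _) two_ne_zero).1 h7) hgood L
  convert h <;> rfl

end Pool.Agent.SSQ52
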